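import Pool.Agent.helper55.FPZ.SpecK

/-!
# Project FPZ, row FB1: algebraic elements of a finitely generated domain have all their values in one number field
-/

set_option autoImplicit false

namespace Pool.Agent.FPZ

open Matrix Polynomial Pool.Agent.PL Pool.Agent.X4

/-- a ring homomorphism to a nontrivial ring does not kill a nonzero algebraic element of a domain -/
theorem FB1_ne {A K : Type} [CommRing A] [IsDomain A] [Algebra ℚ A] [CommRing K] [Nontrivial K]
    (ψ : A →+* K) {x : A} (hx : IsIntegral ℚ x) (h : ψ x = 0) : x = 0 := by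
  by_contra h0
  have h1 : IsUnit (ψ x) := (hx.isUnit h0).map ψ
  rw [h] at h1
  exact not_isUnit_zero h1

theorem FB1_lift {A L F : Type} [CommRing A] [IsDomain A] [Algebra ℚ A] [Field L] [CharZero L]
    [Algebra.IsAlgebraic ℚ L] (h : A →+* L) [Field F] [IsAlgClosed F] (φ : A →+* F) :
    ∃ τ : L →+* F, ∀ s : A, IsIntegral ℚ s → φ s = τ (h s) := by
  let R := integralClosure ℚ A
  let aL : Algebra R L := (h.comp (algebraMap R A)).toAlgebra
  let aF : Algebra R F := (φ.comp (algebraMap R A)).toAlgebra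
  have hRint : ∀ r : R, IsIntegral ℚ (r : A) := fun r => r.2
  have hL : Function.Injective (algebraMap R L) := by
    rw [injective_iff_map_eq_zero]
    intro r hr
    exact Subtype.ext (FB1_ne h (hRint r) hr)
  have hF : Function.Injective (algebraMap R F) := by
    rw [injective_iff_map_eq_zero]
    intro r hr
    exact Subtype.ext (FB1_ne φ (hRint r) hr)
  have : Module.IsTorsionFree R L := by
    rw [Module.isTorsionFree_iff_algebraMap_injective]
    exact hL
  have : Module.IsTorsionFree R F := by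
    rw [Module.isTorsionFree_iff_algebraMap_injective]
    exact hF
  have : IsScalarTower ℚ R L := IsScalarTower.of_algebraMap_eq fun q => by
    show algebraMap ℚ L q = h (algebraMap ℚ A q)
    rw [RingHom.map_rat_algebraMap]
  have : Algebra.IsAlgebraic R L := Algebra.IsAlgebraic.extendScalars (R := ℚ)
    (FaithfulSMul.algebraMap_injective ℚ R)
  let τ : L →ₐ[R] F := IsAlgClosed.lift
  refine ⟨τ.toRingHom, fun s hs => ?_⟩
  exact (τ.commutes (⟨s, hs⟩ : R)).symm

/-- `FB1` -/
theorem FB1 : FB1_stmt := by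
  intro A _ _ _ _ S hS
  obtain ⟨M, hM⟩ := Ideal.exists_maximal A
  let _ : Field (A ⧸ M) := Ideal.Quotient.field M
  have hfin : @Module.Finite ℚ (A ⧸ M) _ _ (Ideal.Quotient.algebra ℚ).toModule :=
    finite_of_finite_type_of_isJacobsonRing ℚ (A ⧸ M)
  have hc : CharZero (A ⧸ M) := charZero_of_injective_algebraMap (R := ℚ)
    (FaithfulSMul.algebraMap_injective ℚ (A ⧸ M))
  have h2 : (Ideal.Quotient.algebra ℚ : Algebra ℚ (A ⧸ M)) = DivisionRing.toRatAlgebra :=
    Subsingleton.elim _ _
  rw [h2] at hfin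
  have hNF : NumberField (A ⧸ M) := { to_charZero := hc, to_finiteDimensional := hfin }
  have halg : Algebra.IsAlgebraic ℚ (A ⧸ M) := Algebra.IsAlgebraic.of_finite ℚ (A ⧸ M)
  refine ⟨A ⧸ M, inferInstance, hNF, Ideal.Quotient.mk M, ?_⟩
  intro F _ _ φ
  obtain ⟨τ, hτ⟩ := FB1_lift (Ideal.Quotient.mk M) φ
  exact ⟨τ, fun s hs => hτ s (hS s hs).isIntegral⟩

end Pool.Agent.FPZ
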