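import Pool.Agent.helper55.FPZ.SpecZ

/-!
# Project FPZ, row KI: the diagonal matrix
-/

set_option autoImplicit false

namespace Pool.Agent.FPZ

open Matrix Polynomial Pool.Agent.PL Pool.Agent.X4

theorem KI_tu_tmul {K : Type} [Field K] (τ : QB →+* K) {N m n : ℕ} (y : Tn N m QB)
    (y' : Tn N n QB) : tu τ (tmul y y') = tmul (tu τ y) (tu τ y') := by
  funext I
  exact map_mul τ _ _

theorem KI_tu_ne {K : Type} [Field K] (τ : QB →+* K) {N m : ℕ} {y : Tn N m QB} (hy : y ≠ 0) :
    tu τ y ≠ 0 := by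
  intro h
  apply hy
  funext I
  have h1 : τ (y I) = 0 := congrFun h I
  exact (map_eq_zero τ).mp h1

theorem KI_smul_inj {K : Type} [Field K] {N m : ℕ} {x : Tn N m K} (hx : x ≠ 0) {k k' : K}
    (h : k • x = k' • x) : k = k' := smul_left_injective K hx h

theorem KI_tmul_zero_left {R : Type} [CommRing R] {N m n : ℕ} (t : Tn N n R) :
    tmul (0 : Tn N m R) t = 0 := by
  funext I
  simp [tmul]

theorem KI_tmul_zero_right {R : Type} [CommRing R] {N m n : ℕ} (s : Tn N m R) :
    tmul s (0 : Tn N n R) = 0 := by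
  funext I
  simp [tmul]

theorem KI_tmul_smul {R : Type} [CommRing R] {N m n : ℕ} (s : Tn N m R) (t : Tn N n R) (a b : R) :
    tmul (a • s) (b • t) = (a * b) • tmul s t := by
  funext I
  simp only [tmul, Pi.smul_apply, smul_eq_mul]
  ring

/-- weights of products -/
theorem KI_wt_mul {N m n : ℕ} {A : Set (Fin N → QB)} {y : Tn N m QB} {y' : Tn N n QB}
    {a a' : Fin N → ℤ} (h : Wt A m y a) (h' : Wt A n y' a') :
    Wt A (m + n) (tmul y y') (a + a') := by
  intro I hI d hd
  have h1 : y (fun i => I (Fin.castAdd n i)) ≠ 0 := left_ne_zero_of_mul hI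
  have h2 : y' (fun j => I (Fin.natAdd m j)) ≠ 0 := right_ne_zero_of_mul hI
  have e1 := h _ h1 d hd
  have e2 := h' _ h2 d hd
  rw [Fin.sum_univ_add, e1, e2, ← Finset.sum_add_distrib]
  refine Finset.sum_congr rfl fun i _ => ?_
  rw [Pi.add_apply, Int.cast_add, add_mul]

/-- `GI` of products -/
theorem KI_gi_mul (hTM : TM_stmt) {F : Type} [Field F] [CharZero F] {N : ℕ} {E : Type}
    (D : Datum F N E) (G : Matrix (Fin N) (Fin N) QB) {m n : ℕ} {y : Tn N m QB} {y' : Tn N n QB}
    (h : GI D G m y) (h' : GI D G n y') : GI D G (m + n) (tmul y y') := by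
  intro Y hY
  rw [(hTM QB N m n y y' _).2.1, h Y hY, h' Y hY, KI_tmul_zero_left, KI_tmul_zero_right, add_zero]

theorem KI_tp_mul (hTM : TM_stmt) {K : Type} [Field K] (τ : QB →+* K) {N m n : ℕ}
    (u : Matrix (Fin N) (Fin N) K) {y : Tn N m QB} {y' : Tn N n QB} {k k' : K}
    (h : tp u m *ᵥ tu τ y = k • tu τ y) (h' : tp u n *ᵥ tu τ y' = k' • tu τ y') :
    tp u (m + n) *ᵥ tu τ (tmul y y') = (k * k') • tu τ (tmul y y') := by
  rw [KI_tu_tmul, (hTM K N m n _ _ u).1, h, h', KI_tmul_smul]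

theorem KI_card {N m : ℕ} (I : Fin m → Fin N) (d : Fin N → QB) :
    ∑ k, d (I k) =
      ∑ i, (((Finset.univ.filter (fun k => I k = i)).card : ℤ) : QB) * d i := by
  rw [← Finset.sum_fiberwise (Finset.univ : Finset (Fin m)) I (fun k => d (I k))]
  refine Finset.sum_congr rfl fun i _ => ?_
  rw [Finset.sum_congr rfl (g := fun _ => d i), Finset.sum_const, nsmul_eq_mul, Int.cast_natCast]
  intro k hk
  rw [(Finset.mem_filter.mp hk).2]

theorem KI_prod {N m : ℕ} {K : Type} [Field K] (I : Fin m → Fin N) (ζ : Fin N → Kˣ) :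
    ∏ k, ζ (I k) = ∏ i, ζ i ^ (((Finset.univ.filter (fun k => I k = i)).card : ℕ) : ℤ) := by
  rw [← Finset.prod_fiberwise (Finset.univ : Finset (Fin m)) I (fun k => ζ (I k))]
  refine Finset.prod_congr rfl fun i _ => ?_
  rw [Finset.prod_congr rfl (g := fun _ => ζ i), Finset.prod_const, zpow_natCast]
  intro k hk
  rw [(Finset.mem_filter.mp hk).2]

theorem KI_diag {N m : ℕ} {K : Type} [Field K] (z : Fin N → K) (x : Tn N m K)
    (I : Fin m → Fin N) : (tp (diagonal z) m *ᵥ x) I = (∏ k, z (I k)) * x I := by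
  unfold Matrix.mulVec dotProduct tp
  rw [Finset.sum_eq_single I]
  · simp
  · intro J _ hJ
    obtain ⟨i, hi⟩ := Function.ne_iff.mp hJ
    have h1 : (∏ i, (diagonal z : Matrix (Fin N) (Fin N) K) (I i) (J i)) = 0 :=
      Finset.prod_eq_zero (Finset.mem_univ i) (diagonal_apply_ne _ (Ne.symm hi))
    exact mul_eq_zero_of_left h1 _
  · intro h
    exact absurd (Finset.mem_univ I) h

/-- the tensor `1` of order `0` -/
theorem KI_one {F : Type} [Field F] [CharZero F] {N : ℕ} {E : Type}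
    (D : Datum F N E) (G : Matrix (Fin N) (Fin N) QB) {K : Type} [Field K] (τ : QB →+* K)
    (u : Matrix (Fin N) (Fin N) K) (a : Fin N → ℤ) (ha : W0 (dz D G) a) :
    (fun _ => 1 : Tn N 0 QB) ≠ 0 ∧ GI D G 0 (fun _ => 1) ∧ Wt (dz D G) 0 (fun _ => 1) a ∧
      tp u 0 *ᵥ tu τ (fun _ => 1 : Tn N 0 QB) = (1 : K) • tu τ (fun _ => 1 : Tn N 0 QB) := by
  refine ⟨?_, ?_, ?_, ?_⟩
  · intro h
    exact one_ne_zero (congrFun h (fun i => i.elim0))
  · intro Y _
    funext I
    unfold der
    exact Finset.sum_of_isEmpty _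
  · intro I _ d hd
    rw [ha d hd, Finset.sum_of_isEmpty]
  · rw [one_smul]
    funext I
    unfold Matrix.mulVec dotProduct tp
    rw [Fintype.sum_unique]
    simp [tu]

/-- `KI` -/
theorem KI (hKG : KG_stmt) (hKH : KH_stmt) (hKR : KR_stmt) (hTM : TM_stmt) : KI_stmt := by
  intro F _ _ N E D hD G hG K _ _ _ τ u hu
  classical
  let S : Set ((Fin N → ℤ) × Kˣ) := {p | ∃ (m : ℕ) (y : Tn N m QB), y ≠ 0 ∧ GI D G m y ∧
    Wt (dz D G) m y p.1 ∧ tp u m *ᵥ tu τ y = (p.2 : K) • tu τ y}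
  have S1 : ∀ p ∈ S, ∀ q ∈ S, (p.1 + q.1, p.2 * q.2) ∈ S := by
    rintro p ⟨m, y, hy, hg, hw, he⟩ q ⟨n, y', hy', hg', hw', he'⟩
    refine ⟨m + n, tmul y y', (hTM QB N m n y y' 0).2.2 hy hy', KI_gi_mul hTM D G hg hg',
      KI_wt_mul hw hw', ?_⟩
    rw [KI_tp_mul hTM τ u he he']
    rfl
  have S4 : ∀ k, ((0 : Fin N → ℤ), k) ∈ S → k = 1 := by
    rintro k ⟨m, y, hy, hg, hw, he⟩
    obtain ⟨k', _, hk1, hk2⟩ := hu m y 0 hy hg hw
    have h0 : W0 (dz D G) (0 : Fin N → ℤ) := by
      intro d _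
      simp
    have h1 : (k : K) = k' := KI_smul_inj (KI_tu_ne τ hy) (he.symm.trans hk1)
    rw [hk2 h0] at h1
    exact Units.ext h1
  have S2 : ∀ p ∈ S, (-p.1, p.2⁻¹) ∈ S := by
    rintro p ⟨m, y, hy, hg, hw, he⟩
    obtain ⟨y', hy', hg', hw'⟩ := hKH F N E D hD G hG m y p.1 hy hg hw
    obtain ⟨k', hk0, hk1, _⟩ := hu m y' (-p.1) hy' hg' hw'
    have hq : (-p.1, Units.mk0 k' hk0) ∈ S := ⟨m, y', hy', hg', hw', hk1⟩
    have h1 := S1 p ⟨m, y, hy, hg, hw, he⟩ _ hq
    have h2 : p.2 * Units.mk0 k' hk0 = 1 := by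
      apply S4
      have h3 : p.1 + -p.1 = 0 := add_neg_cancel p.1
      rw [← h3]
      exact h1
    rw [inv_eq_of_mul_eq_one_right h2]
    exact hq
  have S3 : ((0 : Fin N → ℤ), (1 : Kˣ)) ∈ S := by
    have h0 : W0 (dz D G) (0 : Fin N → ℤ) := by
      intro d _
      simp
    obtain ⟨h1, h2, h3, h4⟩ := KI_one D G τ u 0 h0
    exact ⟨0, _, h1, h2, h3, by rw [Units.val_one]; exact h4⟩
  obtain ⟨ζ, hζ⟩ := hKG N K S S1 S2 S3 S4
  refine ⟨fun i => (ζ i : K), fun i => (ζ i).ne_zero, ?_, ?_⟩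
  · intro m I hI
    have h0 : W0 (dz D G) (fun i => ((Finset.univ.filter (fun k => I k = i)).card : ℤ)) := by
      intro d hd
      rw [← KI_card I d]
      exact hI d hd
    obtain ⟨h1, h2, h3, h4⟩ := KI_one D G τ u _ h0
    have h5 := hζ (_, 1) ⟨0, _, h1, h2, h3, by rw [Units.val_one]; exact h4⟩
    have h6 : ∏ k, ζ (I k) = 1 := (KI_prod I ζ).trans h5
    have h7 := congrArg (fun z : Kˣ => (z : K)) h6
    simpa using h7
  · intro m y hg
    let wt : (Fin m → Fin N) → (dz D G → QB) := fun I d => ∑ k, d.1 (I k)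
    let yw : (dz D G → QB) → Tn N m QB := fun w J => if wt J = w then y J else 0
    have hsum : tu τ y = ∑ w ∈ Finset.univ.image wt, tu τ (yw w) := by
      funext J
      rw [Finset.sum_apply, Finset.sum_eq_single (wt J)]
      · simp [tu, yw]
      · intro w _ hw
        simp [tu, yw, Ne.symm hw]
      · intro h
        exact absurd (Finset.mem_image_of_mem wt (Finset.mem_univ J)) h
    have hgi : ∀ w, GI D G m (yw w) := by
      intro w
      refine hKR F N E D hD G hG m y hg (fun J => wt J = w) ?_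
      intro I J hIJ
      have h1 : wt I = wt J := by
        funext d
        exact hIJ d.1 d.2
      rw [h1]
    have hone : ∀ w, tp u m *ᵥ tu τ (yw w) =
        tp (diagonal fun i => (ζ i : K)) m *ᵥ tu τ (yw w) := by
      intro w
      by_cases hw : yw w = 0
      · have h0 : tu τ (yw w) = 0 := by
          rw [hw]
          funext J
          simp [tu]
        rw [h0, Matrix.mulVec_zero, Matrix.mulVec_zero]
      · have hWt : ∀ I, yw w I ≠ 0 →
            Wt (dz D G) m (yw w) (fun i => ((Finset.univ.filter (fun k => I k = i)).card : ℤ)) := by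
          intro I hI J hJ d hd
          have hI' : wt I = w := by
            by_contra h
            exact hI (if_neg h)
          have hJ' : wt J = w := by
            by_contra h
            exact hJ (if_neg h)
          rw [← KI_card I d]
          have h1 := congrFun (hJ'.trans hI'.symm) ⟨d, hd⟩
          exact h1
        obtain ⟨I0, hI0⟩ := Function.ne_iff.mp hw
        obtain ⟨k, hk0, hk1, _⟩ := hu m (yw w) _ hw (hgi w) (hWt I0 hI0)
        rw [hk1]
        funext I
        rw [KI_diag, Pi.smul_apply, smul_eq_mul]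
        by_cases hI : yw w I = 0
        · have h1 : tu τ (yw w) I = 0 := by
            show τ (yw w I) = 0
            rw [hI, map_zero]
          rw [h1, mul_zero, mul_zero]
        · have h5 := hζ (_, Units.mk0 k hk0) ⟨m, yw w, hw, hgi w, hWt I hI, hk1⟩
          have h6 : ∏ j, ζ (I j) = Units.mk0 k hk0 := (KI_prod I ζ).trans h5
          have h7 := congrArg (fun z : Kˣ => (z : K)) h6
          simp only [Units.coe_prod, Units.val_mk0] at h7
          rw [h7]
    rw [hsum, Matrix.mulVec_sum, Matrix.mulVec_sum]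
    exact Finset.sum_congr rfl fun w _ => hone w

end Pool.Agent.FPZ
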