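import Pool.Agent.helper55.FPZ.SpecN

/-!
# Project FPZ, row ND1: a derivation of a tensor which is a transform of a rational tensor
-/

set_option autoImplicit false

namespace Pool.Agent.FPZ

open Matrix Polynomial Pool.Agent.PL Pool.Agent.X4

theorem ND1_prod_left {N m : ℕ} {R : Type} [CommRing R] (u : Matrix (Fin N) (Fin N) R) (k : Fin m)
    (I J : Fin m → Fin N) (a : Fin N) :
    ∏ i, u (Function.update I k a i) (J i) =
      u a (J k) * ∏ i ∈ Finset.univ.erase k, u (I i) (J i) := by
  rw [← Finset.mul_prod_erase Finset.univ _ (Finset.mem_univ k), Function.update_self]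
  congr 1
  refine Finset.prod_congr rfl fun i hi => ?_
  rw [Function.update_of_ne (Finset.ne_of_mem_erase hi)]

theorem ND1_rhs {N m : ℕ} {R : Type} [CommRing R] (c c' D : Matrix (Fin N) (Fin N) R)
    (hw : c' * c = 1) (t : Tn N m R) (I : Fin m → Fin N) (k : Fin m) :
    ∑ j, (D * c') (I k) j * ∑ J, (∏ i, c (Function.update I k j i) (J i)) * t J =
      ∑ J, (∏ i ∈ Finset.univ.erase k, c (I i) (J i)) * D (I k) (J k) * t J := by
  have h1 : ∑ j, (D * c') (I k) j * ∑ J, (∏ i, c (Function.update I k j i) (J i)) * t J =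
      ∑ j, ∑ J, (D * c') (I k) j * ((∏ i, c (Function.update I k j i) (J i)) * t J) :=
    Finset.sum_congr rfl fun J _ => Finset.mul_sum _ _ _
  rw [h1, Finset.sum_comm]
  refine Finset.sum_congr rfl fun J _ => ?_
  have h2 : D (I k) (J k) = ∑ j, (D * c') (I k) j * c j (J k) := by
    rw [← Matrix.mul_apply, Matrix.mul_assoc D c' c, hw, Matrix.mul_one]
  rw [h2, Finset.mul_sum, Finset.sum_mul]
  refine Finset.sum_congr rfl fun j _ => ?_
  rw [ND1_prod_left]
  ring

/-- the derivative of a product -/
theorem ND1_deriv_prod {F ι : Type} [Field F] [CharZero F] [DecidableEq ι] (δ : Derivation ℚ F F)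
    (s : Finset ι) (f : ι → F) :
    δ (∏ i ∈ s, f i) = ∑ i ∈ s, (∏ j ∈ s.erase i, f j) * δ (f i) := by
  induction s using Finset.induction_on with
  | empty => simp
  | @insert a s ha ih =>
    rw [Finset.prod_insert ha, Derivation.leibniz, ih, Finset.sum_insert ha,
      Finset.erase_insert ha, smul_eq_mul, smul_eq_mul, Finset.mul_sum, add_comm]
    congr 1
    refine Finset.sum_congr rfl fun i hi => ?_
    have hia : a ≠ i := fun h => ha (h ▸ hi)
    rw [Finset.erase_insert_of_ne hia,
      Finset.prod_insert (fun h => ha (Finset.mem_of_mem_erase h))]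
    ring

/-- `ND1` -/
theorem ND1 : ND1_stmt := by
  intro F _ _ N m δ c c' hc t
  funext I
  have h1 : der ((c.map fun x => δ x) * c') m (tp c m *ᵥ up F t) I =
      ∑ k : Fin m, ∑ j, ((c.map fun x => δ x) * c') (I k) j *
        ∑ J, (∏ i, c (Function.update I k j i) (J i)) * up F t J := rfl
  have h2 : (tp c m *ᵥ up F t) I = ∑ J, (∏ i, c (I i) (J i)) * up F t J := rfl
  have h3 : ∀ J : Fin m → Fin N, δ ((∏ i, c (I i) (J i)) * up F t J) =
      ∑ k : Fin m, (∏ i ∈ Finset.univ.erase k, c (I i) (J i)) *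
        (c.map fun x => δ x) (I k) (J k) * up F t J := by
    intro J
    have h4 : δ (up F t J) = 0 := by
      have h5 : up F t J = algebraMap ℚ F (t J) := by
        simp [up]
      rw [h5, Derivation.map_algebraMap]
    rw [Derivation.leibniz, h4, smul_zero, zero_add, ND1_deriv_prod, smul_eq_mul,
      Finset.mul_sum]
    refine Finset.sum_congr rfl fun k _ => ?_
    rw [Matrix.map_apply]
    ring
  rw [h1, h2, map_sum, Finset.sum_congr rfl fun J _ => h3 J, Finset.sum_comm]
  refine Finset.sum_congr rfl fun k _ => ?_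
  rw [ND1_rhs c c' (c.map fun x => δ x) hc]

end Pool.Agent.FPZ
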